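import Pool.Agent.T2h14.CL.Main

/-!
# MP_ac6554_pr: the nesting field of a conformal loop ensemble is not Gaussian for `κ ≠ 4`
-/

set_option autoImplicit false

namespace Pool.Agent.Results.MP_ac6554_pr.NeverGaussian

open Pool.Agent.T2h14.CL MeasureTheory

/-- **For `κ ≠ 4` no nesting field is Gaussian, except the zero field.** Let `κ ∈ (8/3, 8)`, `κ ≠ 4`,
let `μ` be a weight distribution (a probability law on the line with finite second moment), `D` a
simply connected domain, not the plane, and let `N` be the nesting field of the nested conformal loop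
ensemble with parameter `κ` in `D` with weight distribution `μ`. If the field is Gaussian then `μ` is
the point mass at `0`, so the field is identically zero.

Proof. Put `c = 1 - 4/κ`, so `c ≠ 0` and `|c| < 1/2`, and let `L` be the Laplace transform of `μ`. Take
the average of the field at scale `r` around `z₀` and condition on the first `n` loops around `z₀`: by
conformal invariance the field inside is Gaussian too, and the Markov property gives, for real `z`,
`exp (z² V_D(r) / 2) ≈ L(z)^n E exp (- m z T_n + z² V_{D_n}(r) / 2)` with
`V_U(r) = a log (CR(U) / r) + O(1)` and `m = E ξ / E T₁`, so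
`L(z)^n (E exp (- (m z + a z² / 2) T₁))^n` stays between two positive constants as `n` grows, and
`L(z) E exp (- (m z + a z² / 2) T₁) = 1` for small real `z`. With the law of `T₁`,
`L(z) cos (π c) = cos (π √(c² - 8 m z / κ - 4 a z² / κ))`. `L` is entire, and both sides can be
continued to the imaginary axis. If `(a, m) ≠ 0` there is a real `θ` for which the root at `z = i θ` is
`1 + i y` with `y` real, and the right-hand side has absolute value `cosh (π y) ≥ 1`, but
`|L(i θ) cos (π c)| ≤ cos (π c) < 1`. So `a = m = 0`, `L = 1` and `μ` is the point mass at `0`. -/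
theorem result (κ : ℝ) (h1 : 8 / 3 < κ) (h2 : κ < 8) (h4 : κ ≠ 4)
    (μ : Measure ℝ) [IsProbabilityMeasure μ] (hμ : Integrable (fun x => x ^ 2) μ)
    (D : Set ℂ) (hD : IsDom D) (z₀ : ℂ) (hz₀ : z₀ ∈ D) (φ : ℂ → ℝ) (hφ : IsMollifier φ)
    (hK : Koebe z₀ φ) (N : Data) (hN : N.IsNestingField κ μ D z₀ φ)
    (hG : N.IsGaussianField D) : μ = Measure.dirac 0 :=
  main h1 h2 h4 hφ hD hz₀ hK hN hG

end Pool.Agent.Results.MP_ac6554_pr.NeverGaussian
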